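import Pool.Agent.H38.Flag.E

/-!
# The vertex-edge inequality for acyclic flag complexes (MP_a320f3_co, Q1)

Let `G` be a finite graph with `v` vertices and `e` edges whose flag complex (clique complex) has
dimension `n` and is acyclic over a field `k`. Then `(v - 1) ^ 2 ≤ n (v ^ 2 - 2 e - 1)`.

More generally it is enough that the flag complex has dimension at most `n`, `n ≥ 1`, and that its
homology in the degree `n` vanishes (there is no nonzero `n`-dimensional cycle); and then the number
of edges is at most `v - 1` plus the number of edges of the Turán graph with `v - 1` vertices and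
`n` classes (second part, where `r` is the remainder of `v - 1` modulo `n`; the cone over this Turán
graph shows that this cannot be improved).

Proof. (1) Deleting a vertex of least degree reduces the statement to the following: if there is no
clique with `n + 2` vertices, if every vertex is nonadjacent to at most `s` vertices (itself
included), and if `v ≥ n s + 2`, then there is a nonzero `n`-dimensional cycle. Here one may assume
`v = n s + 2`. (2) The common neighbours of a clique with `n` vertices are pairwise nonadjacent. If
`s` or more vertices are common neighbours of one such clique, they are adjacent to all other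
vertices, and the cycle is the suspension of a cycle given by induction. (3) Otherwise let `k_j` be
the number of cliques with `j` vertices. Counting the pairs of a clique `Q` with `n + 1` vertices
and a clique `R` in `Q` with `n` vertices, weighted by the inverse of the number `m_R`, between `2`
and `s - 1`, of the common neighbours of `R`, one gets `2 (s - 1) k_n ≤ (2 s + n - 3) k_(n+1)`.
(4) For an ordering of the vertices let `T` be the set of the cliques `R` with `n` vertices whose
first vertex `y` comes before all common neighbours of `R - y`. The boundaries of the elements of `T`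
are linearly independent. For a random ordering the average size of `T` is the sum of
`m_F / (n - 1 + m_F)` over the cliques `F` with `n - 1` vertices, where `m_F` is the number of common
neighbours; by the Cauchy-Schwarz inequality and a count of the cliques with `n + 1` vertices this is
at least `n k_n ^ 2 / ((n + 1) k_(n+1) + (s + n - 1) k_n)`. (5) With (3) it follows that
`k_(n+1) > k_n - |T|` for some ordering, so that the boundary map on `n`-dimensional chains is not
injective.
-/

namespace Pool.Agent.Results.MP_a320f3_co.AcyclicFlagInequality

open Finset Pool.Agent.H38.Flag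

universe u w

/-- Vanishing of the homology in degree `n` is enough. -/
theorem top {k : Type u} [Field k] {V : Type w} [Fintype V] [LinearOrder V] [Nonempty V]
    (G : SimpleGraph V) (n : ℕ) (hn : 1 ≤ n) (hfree : G.CliqueFree (n + 2))
    (hcyc : ∀ z : Finset V → k, IsChain G (n + 1) z → bd z = 0 → z = 0) :
    ((Fintype.card V : ℤ) - 1) ^ 2 +
        (((Fintype.card V - 1) % n : ℕ) : ℤ) * ((n : ℤ) - ((Fintype.card V - 1) % n : ℕ)) ≤
      n * ((Fintype.card V : ℤ) ^ 2 - 2 * (G.edgeSet.ncard : ℤ) - 1) := by
  obtain ⟨m, hm⟩ : ∃ m, Fintype.card V = m + 1 :=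
    ⟨Fintype.card V - 1, by have := Fintype.card_pos (α := V); omega⟩
  have hno : cl G Finset.univ (n + 2) = ∅ := by
    rw [Finset.eq_empty_iff_forall_notMem]
    intro Q hQ
    exact hfree Q (mem_cl.1 hQ).2
  have h := dsum_le (k := k) G n hn m Finset.univ (by rw [Finset.card_univ, hm]) hno
    (fun z hz hb => hcyc z (fun F hF => (hz F hF).2) hb)
  rw [dsum_univ] at h
  rw [hm, Nat.add_sub_cancel]
  generalize ((m % n : ℕ) : ℤ) = r at h ⊢
  push_cast at h ⊢
  nlinarith [h]

/-- **Q1.** If the flag complex of a finite graph is acyclic over a field and has dimension `n` then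
`(v - 1) ^ 2 ≤ n (v ^ 2 - 2 e - 1)`. The second part: it is enough that the dimension is at most
`n`, `n ≥ 1`, and that there is no nonzero cycle in dimension `n`, and the bound is sharpened by
`r (n - r)`, where `r` is the remainder of `v - 1` modulo `n`. -/
theorem result :
    (∀ (k : Type u) [Field k] (V : Type w) [Fintype V] [LinearOrder V] (G : SimpleGraph V) (n : ℕ),
      FlagAcyclic k G → (∃ s : Finset V, G.IsNClique (n + 1) s) → G.CliqueFree (n + 2) →
      ((Fintype.card V : ℤ) - 1) ^ 2 ≤
        n * ((Fintype.card V : ℤ) ^ 2 - 2 * (G.edgeSet.ncard : ℤ) - 1)) ∧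
    (∀ (k : Type u) [Field k] (V : Type w) [Fintype V] [LinearOrder V] [Nonempty V]
      (G : SimpleGraph V) (n : ℕ), 1 ≤ n → G.CliqueFree (n + 2) →
      (∀ z : Finset V → k, IsChain G (n + 1) z → bd z = 0 → z = 0) →
      ((Fintype.card V : ℤ) - 1) ^ 2 +
          (((Fintype.card V - 1) % n : ℕ) : ℤ) * ((n : ℤ) - ((Fintype.card V - 1) % n : ℕ)) ≤
        n * ((Fintype.card V : ℤ) ^ 2 - 2 * (G.edgeSet.ncard : ℤ) - 1)) := by
  refine ⟨?_, ?_⟩
  · intro k _ V _ _ G n hac ⟨s, hs⟩ hfree
    have hcyc : ∀ z : Finset V → k, IsChain G (n + 1) z → bd z = 0 → z = 0 := by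
      intro z hz hb
      obtain ⟨w, hw, hwz⟩ := hac (n + 1) z hz hb
      have hw0 : w = 0 := by
        funext F
        by_contra h
        exact hfree F (hw F h)
      rw [← hwz, hw0, bd_zero]
    have hpos : 0 < s.card := by rw [hs.2]; omega
    obtain ⟨a, _⟩ := Finset.card_pos.1 hpos
    haveI : Nonempty V := ⟨a⟩
    rcases Nat.eq_zero_or_pos n with hn | hn
    · subst hn
      have hle : Fintype.card V ≤ 1 := by
        by_contra h
        push Not at h
        have hno : cl G Finset.univ (0 + 2) = ∅ := by
          rw [Finset.eq_empty_iff_forall_notMem]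
          intro Q hQ
          exact hfree Q (mem_cl.1 hQ).2
        obtain ⟨z, hz, hzs, hzb⟩ := exists_cycle (k := k) G (Fintype.card V) 0 Finset.univ hno
          (fun x _ => Finset.card_le_univ _) (by rw [Finset.card_univ]; omega)
        exact hz (hcyc z (fun F hF => (hzs F hF).2) hzb)
      have heq : Fintype.card V = 1 := le_antisymm hle Fintype.card_pos
      rw [heq]
      simp
    · have h := top (k := k) G n hn hfree hcyc
      have hr : (((Fintype.card V - 1) % n : ℕ) : ℤ) ≤ n := by
        exact_mod_cast (Nat.mod_lt _ hn).le
      have hr0 : (0 : ℤ) ≤ (((Fintype.card V - 1) % n : ℕ) : ℤ) := Int.natCast_nonneg _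
      have hprod : 0 ≤ (((Fintype.card V - 1) % n : ℕ) : ℤ) *
          ((n : ℤ) - ((Fintype.card V - 1) % n : ℕ)) := mul_nonneg hr0 (by linarith)
      linarith
  · intro k _ V _ _ _ G n hn hfree hcyc
    exact top (k := k) G n hn hfree hcyc

end Pool.Agent.Results.MP_a320f3_co.AcyclicFlagInequality
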